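import Mathlib

set_option autoImplicit false

namespace Pool.Agent.Helper259.Selmer

open Finset

variable {ι : Type*} [Fintype ι] [DecidableEq ι]

/-- Second moment of a linear statistic of a random permutation. -/
lemma perm_second_moment (x a : ι → ℝ) (hx : ∑ i, x i = 0) (ha : ∀ i, 0 ≤ a i) (s : ℝ)
    (has : ∀ i, a i ≤ s) :
    ∑ σ : Equiv.Perm ι, (∑ i, a i * x (σ i)) ^ 2 ≤
      (Fintype.card (Equiv.Perm ι) : ℝ) * (s ^ 2 * ∑ i, x i ^ 2) := by
  set S : ι → ι → ℝ := fun i j => ∑ σ : Equiv.Perm ι, x (σ i) * x (σ j) with hS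
  have hexp : ∑ σ : Equiv.Perm ι, (∑ i, a i * x (σ i)) ^ 2 = ∑ i, ∑ j, a i * a j * S i j := by
    simp_rw [hS, sq, Finset.sum_mul_sum, Finset.mul_sum]
    rw [Finset.sum_comm]
    refine Finset.sum_congr rfl fun i _ => ?_
    rw [Finset.sum_comm]
    refine Finset.sum_congr rfl fun j _ => Finset.sum_congr rfl fun σ _ => ?_
    ring
  have hoff : ∀ i j, i ≠ j → S i j ≤ 0 := by
    intro i j hij
    have hinv : ∀ k, i ≠ k → S i k = S i j := by
      intro k hik
      simp only [hS]
      refine Fintype.sum_equiv (Equiv.mulRight (Equiv.swap j k)) _ _ fun σ => ?_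
      simp only [Equiv.coe_mulRight, Equiv.Perm.mul_apply]
      rw [Equiv.swap_apply_left, Equiv.swap_apply_of_ne_of_ne hij hik]
    have hsum : ∑ k ∈ univ.erase i, S i k = - S i i := by
      have h1 : ∑ k, S i k = 0 := by
        simp only [hS]
        rw [Finset.sum_comm]
        apply Finset.sum_eq_zero
        intro σ _
        rw [← Finset.mul_sum, Equiv.sum_comp σ x, hx, mul_zero]
      rw [← Finset.add_sum_erase _ _ (Finset.mem_univ i)] at h1
      linarith
    have hsum2 : ∑ k ∈ univ.erase i, S i k = ((univ.erase i).card : ℝ) * S i j := by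
      rw [Finset.sum_congr rfl fun k hk => hinv k (Finset.ne_of_mem_erase hk).symm,
        Finset.sum_const, nsmul_eq_mul]
    have hSii : 0 ≤ S i i := Finset.sum_nonneg fun σ _ => mul_self_nonneg _
    have hc : 0 < ((univ.erase i).card : ℝ) := by
      have : (univ.erase i).Nonempty := ⟨j, Finset.mem_erase.mpr ⟨hij.symm, Finset.mem_univ j⟩⟩
      exact_mod_cast this.card_pos
    by_contra hcon
    push Not at hcon
    have := mul_pos hc hcon
    linarith
  have hdiag : ∑ i, S i i = (Fintype.card (Equiv.Perm ι) : ℝ) * ∑ i, x i ^ 2 := by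
    simp only [hS]
    rw [Finset.sum_comm]
    have : ∀ σ : Equiv.Perm ι, ∑ i, x (σ i) * x (σ i) = ∑ i, x i ^ 2 := by
      intro σ
      rw [← Equiv.sum_comp σ (fun i => x i ^ 2)]
      exact Finset.sum_congr rfl fun i _ => by ring
    simp_rw [this]
    rw [Finset.sum_const, nsmul_eq_mul, Finset.card_univ]
  rw [hexp]
  calc ∑ i, ∑ j, a i * a j * S i j ≤ ∑ i, s ^ 2 * S i i := by
        apply Finset.sum_le_sum
        intro i _
        rw [← Finset.add_sum_erase _ _ (Finset.mem_univ i)]
        have h1 : ∑ j ∈ univ.erase i, a i * a j * S i j ≤ 0 := by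
          apply Finset.sum_nonpos
          intro j hj
          exact mul_nonpos_of_nonneg_of_nonpos (mul_nonneg (ha i) (ha j))
            (hoff i j (Finset.ne_of_mem_erase hj).symm)
        have hSii : 0 ≤ S i i := Finset.sum_nonneg fun σ _ => mul_self_nonneg _
        have h2 : a i * a i * S i i ≤ s ^ 2 * S i i := by
          apply mul_le_mul_of_nonneg_right _ hSii
          nlinarith [ha i, has i]
        linarith
    _ = (Fintype.card (Equiv.Perm ι) : ℝ) * (s ^ 2 * ∑ i, x i ^ 2) := by
        rw [← Finset.mul_sum, hdiag]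
        ring

/-- Multiplicative independence up to constants. -/
lemma const_of_perm (x e : ι → ℝ) {k l : ι} (hkl : x k ≠ x l)
    (h : ∀ σ : Equiv.Perm ι, ∑ i, e i * x (σ i) = 0) (i j : ι) : e i = e j := by
  by_cases hij : i = j
  · rw [hij]
  have hne : k ≠ l := fun h => hkl (by rw [h])
  obtain ⟨τ, hτi, hτj⟩ : ∃ τ : Equiv.Perm ι, τ i = k ∧ τ j = l := by
    let τ₁ : Equiv.Perm ι := Equiv.swap i k
    refine ⟨Equiv.swap (τ₁ j) l * τ₁, ?_, ?_⟩
    · have h1 : τ₁ i = k := Equiv.swap_apply_left i k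
      have h2 : τ₁ j ≠ k := by
        rw [← h1]; exact fun h => hij (τ₁.injective h).symm
      rw [Equiv.Perm.mul_apply, h1, Equiv.swap_apply_of_ne_of_ne h2.symm hne]
    · rw [Equiv.Perm.mul_apply, Equiv.swap_apply_left]
  have h1 := h τ
  have h2 := h (τ * Equiv.swap i j)
  have h3 : ∀ f : ι → ℝ, ∑ t, f t = f i + f j + ∑ t ∈ (univ.erase i).erase j, f t := by
    intro f
    rw [← Finset.add_sum_erase _ _ (Finset.mem_univ i),
      ← Finset.add_sum_erase (univ.erase i) _ (Finset.mem_erase.mpr ⟨Ne.symm hij, Finset.mem_univ j⟩)]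
    ring
  rw [h3] at h1 h2
  have h4 : ∑ t ∈ (univ.erase i).erase j, e t * x ((τ * Equiv.swap i j) t) =
      ∑ t ∈ (univ.erase i).erase j, e t * x (τ t) := by
    refine Finset.sum_congr rfl fun t ht => ?_
    have ht1 : t ≠ j := Finset.ne_of_mem_erase ht
    have ht2 : t ≠ i := Finset.ne_of_mem_erase (Finset.mem_of_mem_erase ht)
    rw [Equiv.Perm.mul_apply, Equiv.swap_apply_of_ne_of_ne ht2 ht1]
  rw [h4] at h2
  simp only [Equiv.Perm.mul_apply, Equiv.swap_apply_left, Equiv.swap_apply_right] at h2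
  rw [hτi, hτj] at h1 h2
  have h5 : (e i - e j) * (x k - x l) = 0 := by linarith
  rcases mul_eq_zero.mp h5 with h6 | h6
  · linarith
  · exact absurd (by linarith) hkl

end Pool.Agent.Helper259.Selmer
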