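import Mathlib
import Pool.Agent.Helper259.Selmer.Perm

set_option autoImplicit false

namespace Pool.Agent.Helper259.Selmer

open Finset NumberField Real

variable {L : Type*} [Field L] [NumberField L] [IsGalois ℚ L]

/-- the norm of a nonzero algebraic integer is at least one in absolute value -/
lemma log_norm_nonneg (ψ : L →+* ℂ) (t : 𝓞 L) (ht : t ≠ 0) :
    0 ≤ ∑ σ : L ≃ₐ[ℚ] L, log ‖ψ (σ (t : L))‖ := by
  have h1 := Algebra.norm_eq_prod_automorphisms ℚ (t : L)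
  have h2 : ((Algebra.norm ℤ t : ℤ) : ℚ) = Algebra.norm ℚ (t : L) := Algebra.coe_norm_int t
  have h0 : (t : L) ≠ 0 := by
    intro h
    exact ht (by exact_mod_cast h)
  have h3 : Algebra.norm ℤ t ≠ 0 := by
    rw [Ne, Algebra.norm_eq_zero_iff]
    exact ht
  have h4 : ∀ σ : L ≃ₐ[ℚ] L, ‖ψ (σ (t : L))‖ ≠ 0 := by
    intro σ
    rw [norm_ne_zero_iff, map_ne_zero, map_ne_zero]
    exact h0
  rw [← Real.log_prod (fun σ _ => h4 σ), ← norm_prod, ← map_prod, ← h1, ← h2]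
  apply Real.log_nonneg
  rw [eq_ratCast, map_ratCast]
  simp only [Rat.cast_intCast, Complex.norm_intCast]
  exact_mod_cast Int.one_le_abs h3

/-- the sum of the positive parts of the logarithms over the Galois group -/
noncomputable def H (ψ : L →+* ℂ) (y : L) : ℝ := ∑ σ : L ≃ₐ[ℚ] L, posLog ‖ψ (σ y)‖

lemma H_smul (ψ : L →+* ℂ) (y : L) (g : L ≃ₐ[ℚ] L) : H ψ (g y) = H ψ y := by
  unfold H
  exact Fintype.sum_equiv (Equiv.mulRight g) _ _ fun σ => rfl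

/-- If `m` divides `v - g v` and `m` is large compared to the height, then `g v = v`. -/
lemma fixed_of_dvd (ψ : L →+* ℂ) (v : 𝓞 L) (g : L ≃ₐ[ℚ] L) (C : ℝ)
    (hC : H ψ (v : L) ≤ Fintype.card (L ≃ₐ[ℚ] L) * C) (m : ℕ)
    (hm : log 2 + 2 * C < log m) (hdvd : (m : 𝓞 L) ∣ v - g • v) : g • v = v := by
  by_contra hne
  obtain ⟨t, ht⟩ := hdvd
  have ht0 : t ≠ 0 := by
    rintro rfl
    rw [mul_zero] at ht
    exact hne (sub_eq_zero.mp ht).symm
  have hu0 : v - g • v ≠ 0 := fun h => hne (sub_eq_zero.mp h).symm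
  have hm0 : (m : ℝ) ≠ 0 := by
    intro h
    have h' : m = 0 := by exact_mod_cast h
    rw [h', Nat.cast_zero, zero_mul] at ht
    exact hu0 ht
  have ht0' : (t : L) ≠ 0 := fun h => ht0 (by exact_mod_cast h)
  have hu0' : (v : L) - g (v : L) ≠ 0 := by
    intro h
    apply hu0
    apply FaithfulSMul.algebraMap_injective (𝓞 L) L
    rw [map_sub, map_zero]
    exact h
  have htL : (v : L) - g (v : L) = (m : L) * (t : L) := by
    have := congrArg (algebraMap (𝓞 L) L) ht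
    rw [map_sub, map_mul, map_natCast] at this
    exact this
  have h1 : ∀ τ : L ≃ₐ[ℚ] L, log ‖ψ (τ ((v : L) - g (v : L)))‖ =
      log m + log ‖ψ (τ (t : L))‖ := by
    intro τ
    rw [htL, map_mul, map_mul, norm_mul, Real.log_mul]
    · simp
    · simpa using hm0
    · rw [norm_ne_zero_iff, map_ne_zero, map_ne_zero]
      exact ht0'
  have h2 : ∀ τ : L ≃ₐ[ℚ] L, log ‖ψ (τ ((v : L) - g (v : L)))‖ ≤
      log 2 + posLog ‖ψ (τ (v : L))‖ + posLog ‖ψ (τ (g (v : L)))‖ := by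
    intro τ
    calc log ‖ψ (τ ((v : L) - g (v : L)))‖ ≤ posLog ‖ψ (τ ((v : L) - g (v : L)))‖ :=
          le_max_right _ _
      _ = posLog ‖ψ (τ (v : L)) + (- ψ (τ (g (v : L))))‖ := by
          rw [map_sub, map_sub, sub_eq_add_neg]
      _ ≤ _ := by
          refine (posLog_norm_add_le _ _).trans ?_
          rw [norm_neg]
          linarith
  have h3 := Finset.sum_le_sum fun τ (_ : τ ∈ (Finset.univ : Finset (L ≃ₐ[ℚ] L))) => h2 τ
  simp_rw [h1] at h3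
  rw [Finset.sum_add_distrib, Finset.sum_add_distrib, Finset.sum_add_distrib, Finset.sum_const,
    Finset.sum_const, Finset.card_univ, nsmul_eq_mul, nsmul_eq_mul] at h3
  have h4 : ∑ τ : L ≃ₐ[ℚ] L, posLog ‖ψ (τ (g (v : L)))‖ = H ψ (v : L) := H_smul ψ (v : L) g
  have h5 : ∑ τ : L ≃ₐ[ℚ] L, posLog ‖ψ (τ (v : L))‖ = H ψ (v : L) := rfl
  rw [h4, h5] at h3
  have h6 := log_norm_nonneg ψ t ht0
  have hG : 0 < (Fintype.card (L ≃ₐ[ℚ] L) : ℝ) := by exact_mod_cast Fintype.card_pos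
  have h7 := mul_lt_mul_of_pos_left hm hG
  nlinarith

variable {ι : Type*} [Fintype ι] [DecidableEq ι] [MulAction (L ≃ₐ[ℚ] L) ι]

lemma log_prod_pow (β : ι → 𝓞 L) (hβ : ∀ (g : L ≃ₐ[ℚ] L) i, g • β i = β (g • i))
    (hβ0 : ∀ i, β i ≠ 0) (ψ : L →+* ℂ) (a : ι → ℕ) (g : L ≃ₐ[ℚ] L) :
    log ‖ψ (g ((∏ i, β i ^ a i : 𝓞 L) : L))‖ =
      ∑ i, (a i : ℝ) * log ‖ψ (β (g • i) : L)‖ := by
  have h0 : ((∏ i, β i ^ a i : 𝓞 L) : L) = ∏ i, (β i : L) ^ a i := by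
    have := map_prod (algebraMap (𝓞 L) L) (fun i => β i ^ a i) Finset.univ
    simp_rw [map_pow] at this
    exact this
  have h1 : g ((∏ i, β i ^ a i : 𝓞 L) : L) = ∏ i, (β (g • i) : L) ^ a i := by
    rw [h0, map_prod]
    refine Finset.prod_congr rfl fun i _ => ?_
    rw [map_pow, ← hβ g i]
    rfl
  rw [h1, map_prod, norm_prod, Real.log_prod]
  · refine Finset.sum_congr rfl fun i _ => ?_
    rw [map_pow, norm_pow, Real.log_pow]
  · intro i _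
    rw [norm_ne_zero_iff, map_ne_zero]
    apply pow_ne_zero
    intro h
    exact hβ0 _ (by exact_mod_cast h)

/-- Height bound for products of powers. -/
lemma H_prod_pow (β : ι → 𝓞 L) (hβ : ∀ (g : L ≃ₐ[ℚ] L) i, g • β i = β (g • i))
    (hβ0 : ∀ i, β i ≠ 0) (ψ : L →+* ℂ) (a : ι → ℕ) (s : ℕ) (ha : ∀ i, a i ≤ s)
    (hbij : Function.Bijective (MulAction.toPermHom (L ≃ₐ[ℚ] L) ι))
    (hsum : ∑ i, log ‖ψ (β i : L)‖ = 0) (K : ℝ)
    (hK : (s : ℝ) ^ 2 * ∑ i, (log ‖ψ (β i : L)‖) ^ 2 ≤ K) :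
    H ψ ((∏ i, β i ^ a i : 𝓞 L) : L) ≤ Fintype.card (L ≃ₐ[ℚ] L) * ((1 + K) / 2) := by
  set x : ι → ℝ := fun i => log ‖ψ (β i : L)‖ with hx
  have h1 : ∀ g : L ≃ₐ[ℚ] L, posLog ‖ψ (g ((∏ i, β i ^ a i : 𝓞 L) : L))‖ ≤
      (1 + (∑ i, (a i : ℝ) * x (g • i)) ^ 2) / 2 := by
    intro g
    have h2 := log_prod_pow β hβ hβ0 ψ a g
    rw [posLog_apply, h2]
    set y := ∑ i, (a i : ℝ) * x (g • i) with hy
    apply max_le
    · positivity
    · nlinarith [sq_nonneg (y - 1)]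
  have h2 : ∑ g : L ≃ₐ[ℚ] L, (∑ i, (a i : ℝ) * x (g • i)) ^ 2 =
      ∑ σ : Equiv.Perm ι, (∑ i, (a i : ℝ) * x (σ i)) ^ 2 :=
    Fintype.sum_equiv (Equiv.ofBijective _ hbij) _ _ fun g => rfl
  have h3 : Fintype.card (Equiv.Perm ι) = Fintype.card (L ≃ₐ[ℚ] L) :=
    (Fintype.card_congr (Equiv.ofBijective _ hbij)).symm
  have h4 := perm_second_moment x (fun i => (a i : ℝ)) hsum (fun i => Nat.cast_nonneg _) s
    (fun i => by exact_mod_cast ha i)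
  rw [h3, ← h2] at h4
  have hG : 0 < (Fintype.card (L ≃ₐ[ℚ] L) : ℝ) := by exact_mod_cast Fintype.card_pos
  calc H ψ ((∏ i, β i ^ a i : 𝓞 L) : L) ≤
      ∑ g : L ≃ₐ[ℚ] L, (1 + (∑ i, (a i : ℝ) * x (g • i)) ^ 2) / 2 :=
        Finset.sum_le_sum fun g _ => h1 g
    _ = (Fintype.card (L ≃ₐ[ℚ] L) + ∑ g : L ≃ₐ[ℚ] L, (∑ i, (a i : ℝ) * x (g • i)) ^ 2) / 2 := by
        rw [← Finset.sum_div, Finset.sum_add_distrib, Finset.sum_const, Finset.card_univ,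
          nsmul_eq_mul, mul_one]
    _ ≤ (Fintype.card (L ≃ₐ[ℚ] L) + Fintype.card (L ≃ₐ[ℚ] L) * K) / 2 := by
        have := h4.trans (mul_le_mul_of_nonneg_left hK hG.le)
        linarith
    _ = Fintype.card (L ≃ₐ[ℚ] L) * ((1 + K) / 2) := by ring

/-- If `g` fixes a product of powers, then it fixes the exponents. -/
lemma exponents_fixed (β : ι → 𝓞 L) (hβ : ∀ (g : L ≃ₐ[ℚ] L) i, g • β i = β (g • i))
    (hβ0 : ∀ i, β i ≠ 0) (ψ : L →+* ℂ) (a : ι → ℕ)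
    (hbij : Function.Bijective (MulAction.toPermHom (L ≃ₐ[ℚ] L) ι))
    {k l : ι} (hkl : log ‖ψ (β k : L)‖ ≠ log ‖ψ (β l : L)‖)
    (g : L ≃ₐ[ℚ] L) (hg : g • (∏ i, β i ^ a i) = ∏ i, β i ^ a i) (i : ι) : a (g • i) = a i := by
  set x : ι → ℝ := fun i => log ‖ψ (β i : L)‖ with hx
  -- rewrite `g • v` as a product of powers
  have h1 : g • (∏ i, β i ^ a i) = ∏ i, β i ^ a (g⁻¹ • i) := by
    rw [Finset.smul_prod']
    simp_rw [smul_pow', hβ]
    refine Fintype.prod_equiv (MulAction.toPerm g) _ _ fun i => ?_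
    simp
  have h2 : ∀ τ : L ≃ₐ[ℚ] L, ∑ i, ((a i : ℝ) - a (g⁻¹ • i)) * x (τ • i) = 0 := by
    intro τ
    have e1 := log_prod_pow β hβ hβ0 ψ a τ
    have e2 := log_prod_pow β hβ hβ0 ψ (fun i => a (g⁻¹ • i)) τ
    rw [← h1, hg, e1] at e2
    simp_rw [sub_mul]
    rw [Finset.sum_sub_distrib]
    exact sub_eq_zero.mpr e2
  have h3 : ∀ σ : Equiv.Perm ι, ∑ i, ((a i : ℝ) - a (g⁻¹ • i)) * x (σ i) = 0 := by
    intro σ
    obtain ⟨τ, rfl⟩ := hbij.surjective σ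
    exact h2 τ
  have h4 := const_of_perm x (fun i => (a i : ℝ) - a (g⁻¹ • i)) hkl h3
  have h5 : ∑ i, ((a i : ℝ) - a (g⁻¹ • i)) = 0 := by
    rw [Finset.sum_sub_distrib, sub_eq_zero]
    exact (Equiv.sum_comp (MulAction.toPerm g⁻¹) (fun i => (a i : ℝ))).symm
  have h6 : ∀ i, (a i : ℝ) - a (g⁻¹ • i) = 0 := by
    intro i
    have h7 : ∑ j, ((a j : ℝ) - a (g⁻¹ • j)) = Fintype.card ι * ((a i : ℝ) - a (g⁻¹ • i)) := by
      rw [Finset.sum_congr rfl fun j _ => h4 j i, Finset.sum_const, Finset.card_univ, nsmul_eq_mul]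
    rw [h5] at h7
    have h8 : (Fintype.card ι : ℝ) ≠ 0 := by
      have : 0 < Fintype.card ι := Fintype.card_pos_iff.mpr ⟨i⟩
      exact_mod_cast this.ne'
    rcases mul_eq_zero.mp h7.symm with h9 | h9
    · exact absurd h9 h8
    · exact h9
  have h7 := h6 (g • i)
  rw [inv_smul_smul] at h7
  have h8 : (a (g • i) : ℝ) = a i := by linarith
  exact_mod_cast h8

end Pool.Agent.Helper259.Selmer
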