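import Mathlib
import Pool.Agent.Helper259.Selmer.Gal

set_option autoImplicit false

namespace Pool.Agent.Helper259.Selmer

open Polynomial NumberField Real

section complex

/-- absolute value bounds for a root of the Selmer polynomial -/
lemma root_bounds {n : ℕ} (hn : 2 ≤ n) {z : ℂ} (hz : z ^ n = z + 1) :
    z ≠ 0 ∧ (n : ℝ) * log ‖z‖ ≤ log 3 ∧ |(n : ℝ) * log ‖z‖| ≤ log (n + 1) := by
  have hz0 : z ≠ 0 := by
    rintro rfl
    rw [zero_pow (by omega)] at hz
    simp at hz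
  have hp : ‖z‖ ^ n = ‖z + 1‖ := by rw [← norm_pow, hz]
  have hzpos : 0 < ‖z‖ := norm_pos_iff.mpr hz0
  have hw : 0 < ‖z + 1‖ := by rw [← hp]; positivity
  have hlog : (n : ℝ) * log ‖z‖ = log ‖z + 1‖ := by
    rw [← hp, Real.log_pow]
  have hz2 : ‖z‖ ≤ 2 := by
    by_contra hcon
    push Not at hcon
    have h1 : ‖z‖ ^ 2 ≤ ‖z‖ ^ n := pow_le_pow_right₀ (by linarith) hn
    have h2 : ‖z + 1‖ ≤ ‖z‖ + 1 := by
      refine (norm_add_le _ _).trans ?_
      simp
    nlinarith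
  have hw3 : ‖z + 1‖ ≤ 3 := by
    refine (norm_add_le _ _).trans ?_
    simp only [norm_one]
    linarith
  have hn' : (2 : ℝ) ≤ n := by exact_mod_cast hn
  have hlow : 1 / ((n : ℝ) + 1) ≤ ‖z + 1‖ := by
    rw [div_le_iff₀ (by positivity)]
    by_cases h1 : 1 ≤ ‖z + 1‖
    · nlinarith
    · push Not at h1
      have h2 : 1 - ‖z + 1‖ ≤ ‖z‖ := by
        have h3 : (1 : ℂ) = (z + 1) - z := by ring
        have h4 : (1 : ℝ) ≤ ‖z + 1‖ + ‖z‖ := by
          calc (1 : ℝ) = ‖(1 : ℂ)‖ := by simp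
            _ = ‖(z + 1) - z‖ := by rw [← h3]
            _ ≤ _ := norm_sub_le _ _
        linarith
      have h3 : (1 - ‖z + 1‖) ^ n ≤ ‖z‖ ^ n := pow_le_pow_left₀ (by linarith) h2 n
      have h4 : 1 + (n : ℝ) * (-‖z + 1‖) ≤ (1 + (-‖z + 1‖)) ^ n :=
        one_add_mul_le_pow (by linarith) n
      have h5 : (1 + (-‖z + 1‖)) ^ n = (1 - ‖z + 1‖) ^ n := by ring
      rw [hp] at h3
      nlinarith
  refine ⟨hz0, ?_, ?_⟩
  · rw [hlog]
    exact Real.log_le_log hw hw3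
  · rw [hlog, abs_le]
    constructor
    · have := Real.log_le_log (by positivity) hlow
      rw [one_div, Real.log_inv] at this
      exact this
    · exact Real.log_le_log hw (by linarith)

lemma not_both_one {z : ℂ} {n : ℕ} (hz : z ^ n = z + 1) (h : ‖z‖ = 1) : ‖1 - z‖ ^ 2 = 3 := by
  have h1 : ‖z + 1‖ = 1 := by rw [← hz, norm_pow, h, one_pow]
  have e1 : z.re ^ 2 + z.im ^ 2 = 1 := by
    have := Complex.sq_norm z
    rw [h, Complex.normSq_apply] at this
    nlinarith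
  have e2 : (z.re + 1) ^ 2 + z.im ^ 2 = 1 := by
    have := Complex.sq_norm (z + 1)
    rw [h1, Complex.normSq_apply] at this
    simp at this
    nlinarith
  rw [Complex.sq_norm, Complex.normSq_apply]
  simp
  nlinarith

end complex

section field

variable {L : Type*} [Field L] [NumberField L] {n : ℕ}

lemma root_pow (ψ : L →+* ℂ) (i : (F n).rootSet (𝓞 L)) :
    (ψ ((i : 𝓞 L) : L)) ^ n = ψ ((i : 𝓞 L) : L) + 1 := by
  have h1 := (mem_rootSet'.mp i.2).2
  have h2 : ((i : 𝓞 L)) ^ n - (i : 𝓞 L) - 1 = 0 := by simpa [F] using h1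
  have h3 : (((i : 𝓞 L) : L)) ^ n - ((i : 𝓞 L) : L) - 1 = 0 := by
    have := congrArg (algebraMap (𝓞 L) L) h2
    rw [map_sub, map_sub, map_pow, map_one, map_zero] at this
    exact this
  have h4 := congrArg ψ h3
  rw [map_sub, map_sub, map_pow, map_one, map_zero] at h4
  linear_combination h4

lemma prod_eq (hn : 2 ≤ n) (hs : ((F n).map (algebraMap ℤ L)).Splits) (ψ : L →+* ℂ) (z : ℂ) :
    ∏ i : (F n).rootSet (𝓞 L), (z - ψ ((i : 𝓞 L) : L)) = z ^ n - z - 1 := by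
  classical
  have h1 := (splits_int hn hs).eq_prod_roots_of_monic (by rw [F_map]; exact monic_aux hn)
  have h2 := nodup_int hn hs
  set χ : 𝓞 L →+* ℂ := ψ.comp (algebraMap (𝓞 L) L) with hχ
  have h3 := congrArg (fun p => (p.map χ).eval z) h1
  beta_reduce at h3
  rw [Polynomial.map_map, Polynomial.map_multiset_prod, Polynomial.eval_multiset_prod,
    Multiset.map_map, Multiset.map_map] at h3
  have h4 : ((F n).map (χ.comp (algebraMap ℤ (𝓞 L)))).eval z = z ^ n - z - 1 := by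
    simp [F]
  rw [h4] at h3
  rw [h3]
  have h5 : (Multiset.map ((eval z ∘ Polynomial.map χ) ∘ fun x => X - C x)
      ((F n).map (algebraMap ℤ (𝓞 L))).roots).prod =
      ∏ y ∈ ((F n).map (algebraMap ℤ (𝓞 L))).roots.toFinset, (z - χ y) := by
    rw [Finset.prod_multiset_map_count]
    refine Finset.prod_congr rfl fun y hy => ?_
    rw [Multiset.count_eq_one_of_mem h2 (Multiset.mem_toFinset.mp hy), pow_one]
    simp
  rw [h5]
  symm
  refine Finset.prod_subtype _ (p := fun y => y ∈ (F n).rootSet (𝓞 L)) (fun y => ?_) _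
  rw [rootSet_def]
  rfl

variable (hn : 2 ≤ n) (hs : ((F n).map (algebraMap ℤ L)).Splits) (ψ : L →+* ℂ)
include hn hs

lemma sum_log : ∑ i : (F n).rootSet (𝓞 L), log ‖ψ ((i : 𝓞 L) : L)‖ = 0 := by
  have h1 := prod_eq hn hs ψ 0
  rw [zero_pow (by omega)] at h1
  rw [← Real.log_prod, ← norm_prod]
  · have h2 : ‖∏ i : (F n).rootSet (𝓞 L), ψ ((i : 𝓞 L) : L)‖ =
        ‖∏ i : (F n).rootSet (𝓞 L), (0 - ψ ((i : 𝓞 L) : L))‖ := by
      rw [norm_prod, norm_prod]
      simp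
    rw [h2, h1]
    simp
  · intro i _
    rw [norm_ne_zero_iff]
    exact (root_bounds hn (root_pow ψ i)).1

lemma exists_ne : ∃ k l : (F n).rootSet (𝓞 L),
    log ‖ψ ((k : 𝓞 L) : L)‖ ≠ log ‖ψ ((l : 𝓞 L) : L)‖ := by
  by_contra hcon
  push Not at hcon
  have hcard := card_rootSet_int hn hs
  have h0 := sum_log hn hs ψ
  have h1 : ∀ i : (F n).rootSet (𝓞 L), log ‖ψ ((i : 𝓞 L) : L)‖ = 0 := by
    intro i
    rw [Finset.sum_congr rfl fun j _ => hcon j i, Finset.sum_const, Finset.card_univ, hcard,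
      nsmul_eq_mul] at h0
    rcases mul_eq_zero.mp h0 with h | h
    · have : n = 0 := by exact_mod_cast h
      omega
    · exact h
  have h2 : ∀ i : (F n).rootSet (𝓞 L), ‖ψ ((i : 𝓞 L) : L)‖ = 1 := by
    intro i
    have h3 : 0 < ‖ψ ((i : 𝓞 L) : L)‖ := norm_pos_iff.mpr (root_bounds hn (root_pow ψ i)).1
    exact Real.eq_one_of_pos_of_log_eq_zero h3 (h1 i)
  have h3 : ∀ i : (F n).rootSet (𝓞 L), ‖1 - ψ ((i : 𝓞 L) : L)‖ ^ 2 = 3 := fun i =>
    not_both_one (root_pow ψ i) (h2 i)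
  have h4 := prod_eq hn hs ψ 1
  have h5 := congrArg (fun z : ℂ => ‖z‖ ^ 2) h4
  simp only [norm_prod, ← Finset.prod_pow] at h5
  rw [Finset.prod_congr rfl fun i _ => h3 i, Finset.prod_const, Finset.card_univ, hcard] at h5
  simp at h5
  have h6 : (1 : ℝ) < 3 ^ n := one_lt_pow₀ (by norm_num) (by omega)
  linarith

lemma sum_sq_le : ∑ i : (F n).rootSet (𝓞 L), (log ‖ψ ((i : 𝓞 L) : L)‖) ^ 2 ≤
    2 * log 3 * log (n + 1) / n := by
  have hcard := card_rootSet_int hn hs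
  have hn0 : (0 : ℝ) < n := by exact_mod_cast (by omega : 0 < n)
  have hb : ∀ i : (F n).rootSet (𝓞 L), |log ‖ψ ((i : 𝓞 L) : L)‖| ≤ log (n + 1) / n := by
    intro i
    have := (root_bounds hn (root_pow ψ i)).2.2
    rw [abs_mul, abs_of_pos hn0] at this
    rw [le_div_iff₀ hn0]
    linarith
  have hu : ∀ i : (F n).rootSet (𝓞 L), max (log ‖ψ ((i : 𝓞 L) : L)‖) 0 ≤ log 3 / n := by
    intro i
    have := (root_bounds hn (root_pow ψ i)).2.1
    apply max_le
    · rw [le_div_iff₀ hn0]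
      linarith
    · have : 0 ≤ log 3 := Real.log_nonneg (by norm_num)
      positivity
  have habs : ∑ i : (F n).rootSet (𝓞 L), |log ‖ψ ((i : 𝓞 L) : L)‖| ≤ 2 * log 3 := by
    have h1 : ∀ t : ℝ, |t| = 2 * max t 0 - t := by
      intro t
      rcases le_total t 0 with h | h
      · rw [abs_of_nonpos h, max_eq_right h]; ring
      · rw [abs_of_nonneg h, max_eq_left h]; ring
    simp_rw [h1]
    rw [Finset.sum_sub_distrib, sum_log hn hs ψ, sub_zero, ← Finset.mul_sum]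
    have h2 := Finset.sum_le_sum fun (i : (F n).rootSet (𝓞 L)) (_ : i ∈ Finset.univ) => hu i
    rw [Finset.sum_const, Finset.card_univ, hcard, nsmul_eq_mul] at h2
    have h3 : (n : ℝ) * (log 3 / n) = log 3 := by field_simp
    linarith
  calc ∑ i : (F n).rootSet (𝓞 L), (log ‖ψ ((i : 𝓞 L) : L)‖) ^ 2 ≤
      ∑ i : (F n).rootSet (𝓞 L), (log (n + 1) / n) * |log ‖ψ ((i : 𝓞 L) : L)‖| := by
        apply Finset.sum_le_sum
        intro i _
        rw [← sq_abs, sq]
        exact mul_le_mul_of_nonneg_right (hb i) (abs_nonneg _)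
    _ = (log (n + 1) / n) * ∑ i : (F n).rootSet (𝓞 L), |log ‖ψ ((i : 𝓞 L) : L)‖| := by
        rw [Finset.mul_sum]
    _ ≤ (log (n + 1) / n) * (2 * log 3) := by
        apply mul_le_mul_of_nonneg_left habs
        have : 0 ≤ log ((n : ℝ) + 1) := Real.log_nonneg (by linarith)
        positivity
    _ = 2 * log 3 * log (n + 1) / n := by ring

end field

/-- the arithmetic of the digits -/
lemma exists_base {n : ℕ} (hn : 2 ≤ n) : ∃ s : ℕ, n ≤ s ^ 3 ∧
    (s : ℝ) ^ 2 * (2 * log 3 * log (n + 1) / n) ≤ 96 := by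
  -- the least `s` with `n ≤ s ^ 3`
  have hex : ∃ s : ℕ, n ≤ s ^ 3 := ⟨n, Nat.le_self_pow (by norm_num) n⟩
  set s := Nat.find hex with hs
  have h1 : n ≤ s ^ 3 := Nat.find_spec hex
  have hs2 : 2 ≤ s := by
    by_contra hcon
    have : s = 0 ∨ s = 1 := by omega
    rcases this with h | h <;> rw [h] at h1 <;> omega
  obtain ⟨t, ht⟩ : ∃ t, s = t + 1 := ⟨s - 1, by omega⟩
  have ht1 : 1 ≤ t := by omega
  have h2 : t ^ 3 < n := by
    have := Nat.find_min hex (m := t) (by rw [← hs, ht]; omega)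
    omega
  refine ⟨s, h1, ?_⟩
  have ht' : (1 : ℝ) ≤ t := by exact_mod_cast ht1
  have hn' : ((t : ℝ)) ^ 3 ≤ n := by exact_mod_cast h2.le
  have hn0 : (0 : ℝ) < n := by exact_mod_cast (by omega : 0 < n)
  have hsR : (s : ℝ) = t + 1 := by rw [ht]; push_cast; ring
  have hnu : (n : ℝ) + 1 ≤ (t + 2) ^ 3 := by
    have h3 : (n : ℝ) ≤ (t + 1) ^ 3 := by
      have : (n : ℝ) ≤ (s : ℝ) ^ 3 := by exact_mod_cast h1
      rwa [hsR] at this
    nlinarith
  have hlog : log ((n : ℝ) + 1) ≤ 6 * t := by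
    calc log ((n : ℝ) + 1) ≤ log ((t + 2) ^ 3) := Real.log_le_log (by linarith) hnu
      _ = 3 * log (t + 2) := by rw [Real.log_pow]; norm_num
      _ ≤ 3 * (t + 2 - 1) := by
          have := Real.log_le_sub_one_of_pos (show (0 : ℝ) < t + 2 by linarith)
          linarith
      _ ≤ 6 * t := by linarith
  have hlog3 : log 3 ≤ 2 := by
    have := Real.log_le_sub_one_of_pos (show (0 : ℝ) < 3 by norm_num)
    linarith
  have hlog3' : 0 ≤ log 3 := Real.log_nonneg (by norm_num)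
  have hlogn : 0 ≤ log ((n : ℝ) + 1) := Real.log_nonneg (by linarith)
  have h4 : (s : ℝ) ^ 2 ≤ 4 * t ^ 2 := by rw [hsR]; nlinarith
  rw [← mul_div_assoc, div_le_iff₀ hn0]
  have h5 : 2 * log 3 * log (n + 1) ≤ 2 * 2 * (6 * t) := by
    apply mul_le_mul _ hlog hlogn (by norm_num)
    linarith
  calc (s : ℝ) ^ 2 * (2 * log 3 * log (n + 1)) ≤
      (4 * (t : ℝ) ^ 2) * (2 * 2 * (6 * (t : ℝ))) := by
        apply mul_le_mul h4 h5 (by positivity) (by positivity)
    _ = 96 * (t : ℝ) ^ 3 := by ring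
    _ ≤ 96 * (n : ℝ) := by linarith

end Pool.Agent.Helper259.Selmer
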