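import Mathlib
import Pool.Agent.Helper259.Selmer.Core
import Pool.Agent.Helper259.Selmer.Roots

set_option autoImplicit false

namespace Pool.Agent.Helper259.Selmer

open Polynomial NumberField Real

variable {L : Type*} [Field L] [NumberField L] [IsGalois ℚ L]

/-- the multiplier -/
noncomputable def M : ℕ := ⌈Real.exp 100⌉₊

lemma log_M : log 2 + 2 * ((1 + 96) / 2) < log (M : ℝ) := by
  have h1 : Real.exp 100 ≤ M := Nat.le_ceil _
  have h2 : 100 ≤ log (M : ℝ) := by
    rw [Real.le_log_iff_exp_le (lt_of_lt_of_le (Real.exp_pos _) h1)]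
    exact h1
  have h3 : log 2 ≤ 1 := by
    have := Real.log_le_sub_one_of_pos (show (0 : ℝ) < 2 by norm_num)
    linarith
  linarith

/-- the height bound -/
noncomputable def B : ℝ := 2 * log 2 + 3 * log (M : ℝ) + 3 * ((1 + 96) / 2)

/-- The three digit construction. -/
theorem exists_alpha {n : ℕ} (hn : n.Prime)
    (hs : IsSplittingField ℚ L (X ^ n - X - 1 : ℚ[X])) (ψ : L →+* ℂ) :
    ∃ α : 𝓞 L, (∀ g : L ≃ₐ[ℚ] L, g • α = α → g = 1) ∧
      H ψ (α : L) ≤ Fintype.card (L ≃ₐ[ℚ] L) * B := by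
  classical
  have hn2 := hn.two_le
  have hF : (F n).map (algebraMap ℤ L) = (X ^ n - X - 1 : ℚ[X]).map (algebraMap ℚ L) := by
    rw [F_map]; simp
  have hsF : ((F n).map (algebraMap ℤ L)).Splits := by rw [hF]; exact hs.splits
  have hcard := card_rootSet_int hn2 hsF
  have hbij := bijective hn hs
  obtain ⟨s, hs3, hsb⟩ := exists_base hn2
  obtain ⟨k, l, hkl⟩ := exists_ne hn2 hsF ψ
  set ι := (F n).rootSet (𝓞 L) with hι
  let β : ι → 𝓞 L := fun i => (i : 𝓞 L)
  have hβ : ∀ (g : L ≃ₐ[ℚ] L) (i : ι), g • β i = β (g • i) := fun g i => rfl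
  have hβ0 : ∀ i, β i ≠ 0 := by
    intro i h
    apply (root_bounds hn2 (root_pow ψ i)).1
    have h' : ((i : 𝓞 L)) = 0 := h
    rw [h']
    simp
  have hsum : ∑ i, log ‖ψ (β i : L)‖ = 0 := sum_log hn2 hsF ψ
  have hK : (s : ℝ) ^ 2 * ∑ i, (log ‖ψ (β i : L)‖) ^ 2 ≤ 96 :=
    (mul_le_mul_of_nonneg_left (sum_sq_le hn2 hsF ψ) (by positivity)).trans hsb
  -- the digits
  let e : ι ≃ Fin n := Fintype.equivFinOfCardEq hcard
  let a : Fin 3 → ι → ℕ := fun k i => ((e i : ℕ) / s ^ (k : ℕ)) % s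
  have hs0 : 0 < s := by
    rcases Nat.eq_zero_or_pos s with h | h
    · rw [h] at hs3; simp at hs3; omega
    · exact h
  have ha : ∀ k i, a k i ≤ s := fun k i => (Nat.mod_lt _ hs0).le
  have hinj : ∀ i j, (∀ k, a k i = a k j) → i = j := by
    intro i j h
    apply e.injective
    apply Fin.ext
    have key : ∀ t : ℕ, t < n → t = (t / s ^ 0) % s + s * ((t / s ^ 1) % s) +
        s ^ 2 * ((t / s ^ 2) % s) := by
      intro t ht
      have h2 : t / s ^ 2 < s := by
        rw [Nat.div_lt_iff_lt_mul (by positivity)]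
        calc t < n := ht
          _ ≤ s ^ 3 := hs3
          _ = s * s ^ 2 := by ring
      rw [Nat.mod_eq_of_lt h2, pow_zero, Nat.div_one, pow_one]
      have h3 : t / s ^ 2 = t / s / s := by rw [Nat.div_div_eq_div_mul, sq]
      rw [h3]
      have e1 := Nat.mod_add_div t s
      have e2 := Nat.mod_add_div (t / s) s
      calc t = t % s + s * (t / s) := e1.symm
        _ = t % s + s * ((t / s) % s + s * (t / s / s)) := by rw [e2]
        _ = _ := by ring
    have h0 := h 0
    have h1 := h 1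
    have h2 := h 2
    simp only [a] at h0 h1 h2
    norm_num at h0 h1 h2
    rw [key _ (e i).2, key _ (e j).2]
    norm_num
    rw [h0, h1, h2]
  let v : Fin 3 → 𝓞 L := fun k => ∏ i, β i ^ a k i
  have hH : ∀ k, H ψ (v k : L) ≤ Fintype.card (L ≃ₐ[ℚ] L) * ((1 + 96) / 2) := fun k =>
    H_prod_pow β hβ hβ0 ψ (a k) s (ha k) hbij hsum 96 hK
  refine ⟨v 0 + (M : 𝓞 L) * v 1 + (M : 𝓞 L) ^ 2 * v 2, ?_, ?_⟩
  · intro g hg
    have hM : (M : 𝓞 L) ≠ 0 := by
      have : (M : ℕ) ≠ 0 := by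
        intro h
        have h1 := log_M
        rw [h] at h1
        simp at h1
        have : 0 < log 2 := Real.log_pos (by norm_num)
        linarith
      exact_mod_cast this
    have hMg : g • (M : 𝓞 L) = (M : 𝓞 L) :=
      map_natCast (MulSemiringAction.toRingHom (L ≃ₐ[ℚ] L) (𝓞 L) g) M
    simp only [smul_add, smul_mul', smul_pow', hMg] at hg
    have f0 : g • v 0 = v 0 := by
      apply fixed_of_dvd ψ (v 0) g _ (hH 0) M log_M
      refine ⟨(g • v 1 - v 1) + (M : 𝓞 L) * (g • v 2 - v 2), ?_⟩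
      linear_combination -hg
    have f1 : g • v 1 = v 1 := by
      apply fixed_of_dvd ψ (v 1) g _ (hH 1) M log_M
      refine ⟨g • v 2 - v 2, ?_⟩
      rw [f0] at hg
      apply mul_left_cancel₀ hM
      linear_combination -hg
    have f2 : g • v 2 = v 2 := by
      rw [f0, f1] at hg
      apply mul_left_cancel₀ (pow_ne_zero 2 hM)
      linear_combination hg
    have hfix : ∀ k, g • v k = v k := by
      intro k
      fin_cases k
      · exact f0
      · exact f1
      · exact f2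
    apply hbij.injective
    rw [map_one]
    ext1 i
    have h1 : g • i = i := hinj _ _ fun k =>
      exponents_fixed β hβ hβ0 ψ (a k) hbij hkl g (hfix k) i
    exact h1
  · have hpt : ∀ σ : L ≃ₐ[ℚ] L, posLog ‖ψ (σ ((v 0 + (M : 𝓞 L) * v 1 +
        (M : 𝓞 L) ^ 2 * v 2 : 𝓞 L) : L))‖ ≤ (2 * log 2 + 3 * log (M : ℝ)) +
        posLog ‖ψ (σ (v 0 : L))‖ + posLog ‖ψ (σ (v 1 : L))‖ + posLog ‖ψ (σ (v 2 : L))‖ := by
      intro σ
      have e1 : ψ (σ ((v 0 + (M : 𝓞 L) * v 1 + (M : 𝓞 L) ^ 2 * v 2 : 𝓞 L) : L)) =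
          ψ (σ (v 0 : L)) + (M : ℂ) * ψ (σ (v 1 : L)) + (M : ℂ) ^ 2 * ψ (σ (v 2 : L)) := by
        have : ((v 0 + (M : 𝓞 L) * v 1 + (M : 𝓞 L) ^ 2 * v 2 : 𝓞 L) : L) =
            (v 0 : L) + (M : L) * (v 1 : L) + (M : L) ^ 2 * (v 2 : L) := by
          push_cast
          rfl
        rw [this]
        simp only [map_add, map_mul, map_pow, map_natCast]
      rw [e1]
      refine (posLog_norm_add_le _ _).trans ?_
      have h1 := posLog_norm_add_le (ψ (σ (v 0 : L))) ((M : ℂ) * ψ (σ (v 1 : L)))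
      have h2 : posLog ‖(M : ℂ) * ψ (σ (v 1 : L))‖ ≤ log M + posLog ‖ψ (σ (v 1 : L))‖ := by
        rw [norm_mul, Complex.norm_natCast]
        exact posLog_nat_mul
      have h3 : posLog ‖(M : ℂ) ^ 2 * ψ (σ (v 2 : L))‖ ≤ 2 * log M + posLog ‖ψ (σ (v 2 : L))‖ := by
        rw [norm_mul, norm_pow, Complex.norm_natCast, sq, mul_assoc]
        have h4 : posLog ((M : ℝ) * ((M : ℝ) * ‖ψ (σ (v 2 : L))‖)) ≤
            log M + posLog ((M : ℝ) * ‖ψ (σ (v 2 : L))‖) := posLog_nat_mul
        have h5 : posLog ((M : ℝ) * ‖ψ (σ (v 2 : L))‖) ≤ log M + posLog ‖ψ (σ (v 2 : L))‖ :=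
          posLog_nat_mul
        linarith
      linarith
    calc H ψ ((v 0 + (M : 𝓞 L) * v 1 + (M : 𝓞 L) ^ 2 * v 2 : 𝓞 L) : L) ≤
        ∑ σ : L ≃ₐ[ℚ] L, ((2 * log 2 + 3 * log (M : ℝ)) +
        posLog ‖ψ (σ (v 0 : L))‖ + posLog ‖ψ (σ (v 1 : L))‖ + posLog ‖ψ (σ (v 2 : L))‖) :=
          Finset.sum_le_sum fun σ _ => hpt σ
      _ = Fintype.card (L ≃ₐ[ℚ] L) * (2 * log 2 + 3 * log (M : ℝ)) + H ψ (v 0 : L) +
          H ψ (v 1 : L) + H ψ (v 2 : L) := by
          rw [Finset.sum_add_distrib, Finset.sum_add_distrib, Finset.sum_add_distrib,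
            Finset.sum_const, Finset.card_univ, nsmul_eq_mul]
          rfl
      _ ≤ Fintype.card (L ≃ₐ[ℚ] L) * B := by
          have h0 := hH 0
          have h1 := hH 1
          have h2 := hH 2
          have : Fintype.card (L ≃ₐ[ℚ] L) * B =
            Fintype.card (L ≃ₐ[ℚ] L) * (2 * log 2 + 3 * log (M : ℝ)) +
            Fintype.card (L ≃ₐ[ℚ] L) * ((1 + 96) / 2) +
            Fintype.card (L ≃ₐ[ℚ] L) * ((1 + 96) / 2) +
            Fintype.card (L ≃ₐ[ℚ] L) * ((1 + 96) / 2) := by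
              rw [B]; ring
          rw [this]
          linarith

/-- Mahler measure of the minimal polynomial of a primitive element. -/
theorem mahler {L : IntermediateField ℚ ℂ} [NumberField L] [IsGalois ℚ L] (α : 𝓞 L)
    (hα : ∀ g : L ≃ₐ[ℚ] L, g • α = α → g = 1) :
    IntermediateField.adjoin ℚ {((α : L) : ℂ)} = L ∧
    (minpoly ℤ ((α : L) : ℂ)).natDegree = Fintype.card (L ≃ₐ[ℚ] L) ∧
    log (mahlerMeasure ((minpoly ℤ ((α : L) : ℂ)).map (Int.castRingHom ℂ))) =
      H (algebraMap L ℂ) (α : L) := by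
  classical
  have hinj : Function.Injective fun σ : L ≃ₐ[ℚ] L => ((σ (α : L) : L) : ℂ) := by
    intro σ τ h
    have h1 : σ (α : L) = τ (α : L) := Subtype.ext h
    have h2 : (τ⁻¹ * σ) • α = α := by
      apply FaithfulSMul.algebraMap_injective (𝓞 L) L
      change (τ⁻¹ * σ) (α : L) = (α : L)
      rw [AlgEquiv.mul_apply, h1, ← AlgEquiv.mul_apply, inv_mul_cancel, AlgEquiv.one_apply]
    have h3 := hα _ h2
    exact (inv_mul_eq_one.mp h3).symm
  have htop : IntermediateField.adjoin ℚ {(α : L)} = ⊤ := by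
    rw [← IsGalois.fixedField_fixingSubgroup (IntermediateField.adjoin ℚ {(α : L)})]
    have : (IntermediateField.adjoin ℚ {(α : L)}).fixingSubgroup = ⊥ := by
      rw [eq_bot_iff]
      intro g hg
      rw [Subgroup.mem_bot]
      apply hα
      apply FaithfulSMul.algebraMap_injective (𝓞 L) L
      change g (α : L) = (α : L)
      rw [IntermediateField.mem_fixingSubgroup_iff] at hg
      exact hg _ (IntermediateField.mem_adjoin_simple_self ℚ _)
    rw [this]
    exact IntermediateField.fixedField_bot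
  have hintL : IsIntegral ℚ (α : L) := IsIntegral.of_finite ℚ _
  have hdeg : (minpoly ℚ (α : L)).natDegree = Fintype.card (L ≃ₐ[ℚ] L) := by
    rw [← IntermediateField.adjoin.finrank hintL, htop, IntermediateField.finrank_top',
      ← IsGalois.card_aut_eq_finrank, Nat.card_eq_fintype_card]
  have hmin : minpoly ℚ ((α : L) : ℂ) = minpoly ℚ (α : L) :=
    minpoly.algebraMap_eq (algebraMap L ℂ).injective (α : L)
  have hintZ : IsIntegral ℤ ((α : L) : ℂ) := by
    have h1 : IsIntegral ℤ (α : L) := RingOfIntegers.isIntegral_coe α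
    exact h1.map (Algebra.algHom ℤ L ℂ)
  have hminZ : minpoly ℚ ((α : L) : ℂ) = (minpoly ℤ ((α : L) : ℂ)).map (algebraMap ℤ ℚ) :=
    minpoly.isIntegrallyClosed_eq_field_fractions' ℚ hintZ
  have hmonic := minpoly.monic hintZ
  have hdegZ : (minpoly ℤ ((α : L) : ℂ)).natDegree = Fintype.card (L ≃ₐ[ℚ] L) := by
    rw [← hdeg, ← hmin, hminZ, hmonic.natDegree_map]
  refine ⟨?_, hdegZ, ?_⟩
  · let f : L →ₐ[ℚ] ℂ := (algebraMap L ℂ).toRatAlgHom
    have h1 := congrArg (fun K => IntermediateField.map f K) htop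
    simp only [IntermediateField.adjoin_map, Set.image_singleton] at h1
    apply le_antisymm
    · rw [IntermediateField.adjoin_simple_le_iff]
      exact (α : L).2
    · intro x hx
      have h2 : x ∈ IntermediateField.map f ⊤ := ⟨⟨x, hx⟩, trivial, rfl⟩
      rw [← h1] at h2
      exact h2
  · set q : ℂ[X] := (minpoly ℤ ((α : L) : ℂ)).map (Int.castRingHom ℂ) with hq
    have hqmonic : q.Monic := hmonic.map _
    have hqdeg : q.natDegree = Fintype.card (L ≃ₐ[ℚ] L) := by
      rw [hq, hmonic.natDegree_map, hdegZ]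
    have hroot : ∀ σ : L ≃ₐ[ℚ] L, ((σ (α : L) : L) : ℂ) ∈ q.roots := by
      intro σ
      rw [mem_roots hqmonic.ne_zero, IsRoot.def, hq]
      have h1 : aeval (σ (α : L)) (minpoly ℚ (α : L)) = 0 := by
        have h2 := minpoly.aeval ℚ (α : L)
        have h3 := congrArg (σ : L →ₐ[ℚ] L) h2
        rw [map_zero] at h3
        rw [← h3]
        exact (aeval_algHom_apply (σ : L →ₐ[ℚ] L) (α : L) (minpoly ℚ (α : L))).symm ▸ rfl
      have h4 : aeval ((σ (α : L) : L) : ℂ) (minpoly ℚ (α : L)) = 0 := by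
        have h5 := congrArg (algebraMap L ℂ) h1
        rw [map_zero, ← aeval_algebraMap_apply] at h5
        exact h5
      rw [← hmin, hminZ, aeval_map_algebraMap, aeval_def, eval₂_eq_eval_map] at h4
      exact h4
    have hroots : q.roots = (Finset.univ.image fun σ : L ≃ₐ[ℚ] L => ((σ (α : L) : L) : ℂ)).val := by
      symm
      apply Multiset.eq_of_le_of_card_le
      · rw [Finset.val_le_iff_val_subset]
        intro y hy
        rw [Finset.mem_val, Finset.mem_image] at hy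
        obtain ⟨σ, -, rfl⟩ := hy
        exact hroot σ
      · rw [Finset.card_val, Finset.card_image_of_injective _ hinj, Finset.card_univ, ← hqdeg]
        exact card_roots' q
    have h1 : log (mahlerMeasure q) = q.logMahlerMeasure := by
      rw [mahlerMeasure_def_of_ne_zero hqmonic.ne_zero, Real.log_exp]
      rfl
    rw [h1, logMahlerMeasure_eq_log_leadingCoeff_add_sum_log_roots, hqmonic.leadingCoeff, hroots]
    simp only [norm_one, Real.log_one, zero_add]
    have h2 : (Multiset.map (fun a : ℂ => posLog ‖a‖)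
        (Finset.univ.image fun σ : L ≃ₐ[ℚ] L => ((σ (α : L) : L) : ℂ)).val).sum =
        ∑ y ∈ Finset.univ.image (fun σ : L ≃ₐ[ℚ] L => ((σ (α : L) : L) : ℂ)), posLog ‖y‖ := rfl
    rw [h2, Finset.sum_image (fun _ _ _ _ h => hinj h)]
    rfl

end Pool.Agent.Helper259.Selmer
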